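import Pool.Agent.Helper17.R5.Sheet

/-!
# MP_798d7d, rank five: row FIN1
-/

set_option autoImplicit false

namespace Pool.Helper17.R5

theorem fin1_MM_ne : MM ≠ 0 :=
  ne_of_gt (Int.natCast_pos.mpr (Nat.factorial_pos 1000))

theorem fin1_yy_inj {N : ℕ} {t t' : Fin 5 → ℕ} (h : yy N t = yy N t') : t = t' := by
  funext i
  have h1 := congrFun h i
  unfold yy at h1
  have h2 : MM * (sh i * (N : ℤ) + (t i : ℤ)) = MM * (sh i * (N : ℤ) + (t' i : ℤ)) := by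
    linarith
  have h3 := mul_left_cancel₀ fin1_MM_ne h2
  have h4 : (t i : ℤ) = (t' i : ℤ) := by linarith
  exact Int.ofNat.inj h4

/-- the ten abscissae -/
def fin1_th (N : ℕ) (t : Fin 5 → ℕ) (p : Fin 5 × Bool) : ℤ :=
  if p.1 = 0 then xQ (yy N t) (if p.2 then 1 else -1)
  else xP (yy N t) p.1 (if p.2 then 1 else -1)

theorem fin1_th_inj (hM : ST_MULT) {N : ℕ} {t t' : Fin 5 → ℕ} (h1 : ∀ i, 0 < yy N t i)
    (h2 : ∀ i, 0 < yy N t' i) (h : fin1_th N t = fin1_th N t') : t = t' := by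
  apply fin1_yy_inj
  apply hM _ _ h1 h2
  · intro i hi
    constructor
    · have := congrFun h (i, true)
      simpa [fin1_th, hi] using this
    · have := congrFun h (i, false)
      simpa [fin1_th, hi] using this
  · have := congrFun h (0, true)
    simpa [fin1_th] using this
  · have := congrFun h (0, false)
    simpa [fin1_th] using this

theorem fin1_XS_fin (C : ℤ) (N : ℕ) (A B : ℤ) :
    {x : ℤ | |x| ≤ C * (N : ℤ) ^ 2 ∧ ∃ Y : ℤ, Y ^ 2 = x ^ 3 + A * x + B}.Finite := by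
  apply (Set.finite_Icc (-(C * (N : ℤ) ^ 2)) (C * (N : ℤ) ^ 2)).subset
  intro x hx
  exact abs_le.mp hx.1

theorem fin1_RS_fin (C : ℤ) (N : ℕ) : (RS C N).Finite := by
  apply ((Set.finite_Icc (-(C * (N : ℤ) ^ 4)) (C * (N : ℤ) ^ 4)).prod
    (Set.finite_Icc (-(C * (N : ℤ) ^ 6)) (C * (N : ℤ) ^ 6))).subset
  intro p hp
  exact ⟨abs_le.mp hp.2.2.1, abs_le.mp hp.2.2.2.1⟩

/-- the fibres -/
theorem fin1_fib (hM : ST_MULT) (hP : ST_PTS) {C : ℤ} {N : ℕ} (A B : ℤ)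
    (G : Finset (Fin 5 → ℕ))
    (hG : ∀ t ∈ G, Good (yy N t) ∧ (∀ i, 0 < yy N t i) ∧
      (∀ i s, (s = 1 ∨ s = -1) → |xP (yy N t) i s| ≤ C * (N : ℤ) ^ 2) ∧
      (∀ s, (s = 1 ∨ s = -1) → |xQ (yy N t) s| ≤ C * (N : ℤ) ^ 2) ∧
      aA (yy N t) = A ∧ aB (yy N t) = B) :
    G.card ≤ (Ix C N A B) ^ 10 := by
  classical
  set X := (fin1_XS_fin C N A B).toFinset with hX
  have hXc : X.card = Ix C N A B := by
    rw [hX, ← Set.ncard_eq_toFinset_card _ (fin1_XS_fin C N A B)]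
    rfl
  have hc : (Fintype.piFinset (fun _ : Fin 5 × Bool => X)).card = (Ix C N A B) ^ 10 := by
    rw [Fintype.card_piFinset, Finset.prod_const, hXc]
    congr 1
  rw [← hc]
  apply Finset.card_le_card_of_injOn (fin1_th N)
  · intro t ht
    have ht := hG t ht
    rw [Finset.mem_coe, Fintype.mem_piFinset]
    rintro ⟨i, b⟩
    rw [hX, Set.Finite.mem_toFinset]
    have hs : (if b = true then (1 : ℤ) else -1) = 1 ∨ (if b = true then (1 : ℤ) else -1) = -1 := by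
      cases b <;> simp
    have hp := hP (yy N t) ht.1 (if b = true then (1 : ℤ) else -1) hs
    rw [ht.2.2.2.2.1, ht.2.2.2.2.2] at hp
    by_cases hi : i = 0
    · subst hi
      have e : fin1_th N t (0, b) = xQ (yy N t) (if b = true then (1 : ℤ) else -1) := by
        simp [fin1_th]
      rw [e]
      exact ⟨ht.2.2.2.1 _ hs, _, hp.2⟩
    · have e : fin1_th N t (i, b) = xP (yy N t) i (if b = true then (1 : ℤ) else -1) := by
        simp [fin1_th, hi]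
      rw [e]
      exact ⟨ht.2.2.1 i _ hs, _, hp.1 i hi⟩
  · intro t ht t' ht' h
    exact fin1_th_inj hM (hG t ht).2.1 (hG t' ht').2.1 h

/-- reducedness -/
theorem fin1_red {C : ℤ} (hC1 : 1 ≤ C) {N : ℕ} {A B : ℤ} (hA : |A| ≤ C * (N : ℤ) ^ 4)
    (hB : |B| ≤ C * (N : ℤ) ^ 6) (h0 : 4 * A ^ 3 + 27 * B ^ 2 ≠ 0)
    (h1 : ∀ q : ℕ, q.Prime → q ≤ 1000 → ¬ ((q : ℤ) ∣ A ∧ (q : ℤ) ∣ B))
    (h2 : ¬ ∃ q : ℕ, q.Prime ∧ 1000 < q ∧ q ≤ C.toNat * N ∧ (q : ℤ) ∣ A ∧ (q : ℤ) ∣ B) :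
    ∀ q : ℕ, q.Prime → ¬ ((q : ℤ) ^ 4 ∣ A ∧ (q : ℤ) ^ 6 ∣ B) := by
  intro q hq ⟨hqA, hqB⟩
  have dA : (q : ℤ) ∣ A := dvd_trans (dvd_pow_self _ (by norm_num)) hqA
  have dB : (q : ℤ) ∣ B := dvd_trans (dvd_pow_self _ (by norm_num)) hqB
  have hq0 : (0 : ℤ) ≤ (q : ℤ) := Int.natCast_nonneg q
  by_cases hle : q ≤ 1000
  · exact h1 q hq hle ⟨dA, dB⟩
  · apply h2
    refine ⟨q, hq, not_le.mp hle, ?_, dA, dB⟩
    have hCN : (0 : ℤ) ≤ C * (N : ℤ) := by positivity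
    have key : (q : ℤ) ≤ C * (N : ℤ) := by
      by_cases hA0 : A = 0
      · have hB0 : B ≠ 0 := by
          intro hB0
          apply h0
          rw [hA0, hB0]
          norm_num
        have h3 : (q : ℤ) ^ 6 ≤ |B| := Int.le_of_dvd (abs_pos.mpr hB0) ((dvd_abs _ _).mpr hqB)
        have h4 : (q : ℤ) ^ 6 ≤ (C * (N : ℤ)) ^ 6 := by
          refine le_trans (le_trans h3 hB) ?_
          rw [mul_pow]
          apply mul_le_mul_of_nonneg_right _ (by positivity)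
          exact le_self_pow₀ hC1 (by norm_num)
        exact le_of_pow_le_pow_left₀ (by norm_num) hCN h4
      · have h3 : (q : ℤ) ^ 4 ≤ |A| := Int.le_of_dvd (abs_pos.mpr hA0) ((dvd_abs _ _).mpr hqA)
        have h4 : (q : ℤ) ^ 4 ≤ (C * (N : ℤ)) ^ 4 := by
          refine le_trans (le_trans h3 hA) ?_
          rw [mul_pow]
          apply mul_le_mul_of_nonneg_right _ (by positivity)
          exact le_self_pow₀ hC1 (by norm_num)
        exact le_of_pow_le_pow_left₀ (by norm_num) hCN h4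
    have hCt : ((C.toNat : ℕ) : ℤ) = C := Int.toNat_of_nonneg (by linarith)
    have : ((q : ℕ) : ℤ) ≤ ((C.toNat * N : ℕ) : ℤ) := by
      rw [Nat.cast_mul, hCt]
      exact key
    exact Int.ofNat_le.mp this

theorem st_FIN1 (hCE : ST_CERT) (hS : ST_SIEVE) (hM : ST_MULT) (hP : ST_PTS) (hB : ST_BND)
    (hL : ST_LINK) : ST_FIN1 := by
  classical
  obtain ⟨C, hC1, hbnd⟩ := hB
  refine ⟨C, hC1, ?_⟩
  intro ε hε
  have hε' : 0 < ε / 10 := by positivity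
  obtain ⟨D, hD, hlink⟩ := hL (ε / 10) hε' C
  obtain ⟨N0, hsieve⟩ := hS C.toNat
  refine ⟨1 / (4 * (4 * D) ^ 10), by positivity, max N0 1, ?_⟩
  intro N hN
  have hN0 : N0 ≤ N := le_trans (le_max_left _ _) hN
  have hN1 : 1 ≤ N := le_trans (le_max_right _ _) hN
  have hNr : (0 : ℝ) < (N : ℝ) := by exact_mod_cast hN1
  set M : ℝ := 4 * D * (N : ℝ) ^ (ε / 10) with hMdef
  have hM0 : 0 < M := by positivity
  -- the bad sets
  set b1 := (Box N).filter (fun t => ∃ q : ℕ, q.Prime ∧ 1000 < q ∧ q ≤ C.toNat * N ∧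
    (q : ℤ) ∣ aA (yy N t) ∧ (q : ℤ) ∣ aB (yy N t)) with hb1
  set b2 := (Box N).filter (fun t => M < (Ix C N (aA (yy N t)) (aB (yy N t)) : ℝ)) with hb2
  have hboxc : (Box N).card = N ^ 5 := by
    unfold Box
    rw [Fintype.card_piFinset, Finset.prod_const, Finset.card_range]
    congr 1
  have hb1c : 2 * b1.card ≤ N ^ 5 := by
    have := hsieve N hN0
    convert this using 3
  have hb2c : 4 * (b2.card : ℝ) ≤ (N : ℝ) ^ 5 := by
    have h1 : (b2.card : ℝ) * M ≤ ∑ t ∈ Box N, (Ix C N (aA (yy N t)) (aB (yy N t)) : ℝ) := by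
      calc (b2.card : ℝ) * M = ∑ _t ∈ b2, M := by rw [Finset.sum_const, nsmul_eq_mul]
        _ ≤ ∑ t ∈ b2, (Ix C N (aA (yy N t)) (aB (yy N t)) : ℝ) := by
            apply Finset.sum_le_sum
            intro t ht
            exact (Finset.mem_filter.mp ht).2.le
        _ ≤ ∑ t ∈ Box N, (Ix C N (aA (yy N t)) (aB (yy N t)) : ℝ) := by
            apply Finset.sum_le_sum_of_subset_of_nonneg (Finset.filter_subset _ _)
            intro t _ _
            positivity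
    have h2 := hlink N hN1
    have h3 : (N : ℝ) ^ (5 + ε / 10) = (N : ℝ) ^ 5 * (N : ℝ) ^ (ε / 10) := by
      rw [Real.rpow_add hNr]
      norm_cast
    rw [h3] at h2
    have h4 : (b2.card : ℝ) * M ≤ D * ((N : ℝ) ^ 5 * (N : ℝ) ^ (ε / 10)) := le_trans h1 h2
    rw [hMdef] at h4
    have h5 : 0 < D * (N : ℝ) ^ (ε / 10) := by positivity
    have h6 : (4 * (b2.card : ℝ)) * (D * (N : ℝ) ^ (ε / 10)) ≤
        (N : ℝ) ^ 5 * (D * (N : ℝ) ^ (ε / 10)) := by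
      calc (4 * (b2.card : ℝ)) * (D * (N : ℝ) ^ (ε / 10))
          = (b2.card : ℝ) * (4 * D * (N : ℝ) ^ (ε / 10)) := by ring
        _ ≤ D * ((N : ℝ) ^ 5 * (N : ℝ) ^ (ε / 10)) := h4
        _ = (N : ℝ) ^ 5 * (D * (N : ℝ) ^ (ε / 10)) := by ring
    exact le_of_mul_le_mul_right h6 h5
  -- the good set
  set G := (Box N \ b1) \ b2 with hGdef
  have hGc : (N : ℝ) ^ 5 / 4 ≤ (G.card : ℝ) := by
    have h1 : (Box N).card ≤ G.card + b1.card + b2.card := by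
      have h2 : Box N ⊆ G ∪ b1 ∪ b2 := by
        intro t ht
        by_cases ht1 : t ∈ b1
        · exact Finset.mem_union_left _ (Finset.mem_union_right _ ht1)
        by_cases ht2 : t ∈ b2
        · exact Finset.mem_union_right _ ht2
        · apply Finset.mem_union_left
          apply Finset.mem_union_left
          rw [hGdef, Finset.mem_sdiff, Finset.mem_sdiff]
          exact ⟨⟨ht, ht1⟩, ht2⟩
      calc (Box N).card ≤ (G ∪ b1 ∪ b2).card := Finset.card_le_card h2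
        _ ≤ (G ∪ b1).card + b2.card := Finset.card_union_le _ _
        _ ≤ G.card + b1.card + b2.card := by
            have := Finset.card_union_le G b1
            omega
    rw [hboxc] at h1
    have h1' : ((N : ℝ) ^ 5) ≤ (G.card : ℝ) + (b1.card : ℝ) + (b2.card : ℝ) := by exact_mod_cast h1
    have h2' : 2 * (b1.card : ℝ) ≤ (N : ℝ) ^ 5 := by exact_mod_cast hb1c
    linarith
  have hGm : ∀ t ∈ G, t ∈ Box N ∧
      (¬ ∃ q : ℕ, q.Prime ∧ 1000 < q ∧ q ≤ C.toNat * N ∧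
        (q : ℤ) ∣ aA (yy N t) ∧ (q : ℤ) ∣ aB (yy N t)) ∧
      (Ix C N (aA (yy N t)) (aB (yy N t)) : ℝ) ≤ M := by
    intro t ht
    rw [hGdef, Finset.mem_sdiff, Finset.mem_sdiff] at ht
    refine ⟨ht.1.1, ?_, ?_⟩
    · intro h
      exact ht.1.2 (Finset.mem_filter.mpr ⟨ht.1.1, h⟩)
    · by_contra h
      exact ht.2 (Finset.mem_filter.mpr ⟨ht.1.1, not_le.mp h⟩)
  -- the map
  set F : (Fin 5 → ℕ) → ℤ × ℤ := fun t => (aA (yy N t), aB (yy N t)) with hF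
  have himg : G.card ≤ (⌊M⌋₊) ^ 10 * (G.image F).card := by
    apply Finset.card_le_mul_card_image
    intro p hp
    obtain ⟨t0, ht0, hp0⟩ := Finset.mem_image.mp hp
    have hIx : Ix C N p.1 p.2 ≤ ⌊M⌋₊ := by
      apply Nat.le_floor
      have := (hGm t0 ht0).2.2
      rw [← hp0]
      exact this
    refine le_trans ?_ (Nat.pow_le_pow_left hIx 10)
    apply fin1_fib hM hP
    intro t ht
    obtain ⟨htG, htp⟩ := Finset.mem_filter.mp ht
    have hb := hbnd N hN1 t (hGm t htG).1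
    have htp' : (aA (yy N t), aB (yy N t)) = p := htp
    have e1 : aA (yy N t) = p.1 := by rw [← htp']
    have e2 : aB (yy N t) = p.2 := by rw [← htp']
    exact ⟨hb.1, fun i => (hb.2.1 i).1, hb.2.2.2.2.2.2.1, hb.2.2.2.2.2.2.2.1, e1, e2⟩
  have hsub : (↑(G.image F) : Set (ℤ × ℤ)) ⊆ RS C N := by
    intro p hp
    rw [Finset.mem_coe, Finset.mem_image] at hp
    obtain ⟨t, ht, rfl⟩ := hp
    have hg := hGm t ht
    have hb := hbnd N hN1 t hg.1
    have hc := hCE (yy N t) hb.1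
    refine ⟨hc.1, ?_, hb.2.2.2.2.2.2.2.2.1, hb.2.2.2.2.2.2.2.2.2, hc.2.2⟩
    exact fin1_red hC1 hb.2.2.2.2.2.2.2.2.1 hb.2.2.2.2.2.2.2.2.2 hc.1 hc.2.1 hg.2.1
  have hcard : (G.image F).card ≤ (RS C N).ncard := by
    rw [← Set.ncard_coe_finset]
    exact Set.ncard_le_ncard hsub (fin1_RS_fin C N)
  have hfin : (N : ℝ) ^ 5 / 4 ≤ M ^ 10 * ((RS C N).ncard : ℝ) := by
    refine le_trans hGc ?_
    have h1 : (G.card : ℝ) ≤ ((⌊M⌋₊ : ℕ) : ℝ) ^ 10 * ((G.image F).card : ℝ) := by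
      exact_mod_cast himg
    refine le_trans h1 ?_
    apply mul_le_mul
    · exact pow_le_pow_left₀ (Nat.cast_nonneg _) (Nat.floor_le hM0.le) 10
    · exact_mod_cast hcard
    · positivity
    · positivity
  have hM10 : M ^ 10 = (4 * D) ^ 10 * (N : ℝ) ^ ε := by
    rw [hMdef, mul_pow, ← Real.rpow_natCast ((N : ℝ) ^ (ε / 10)) 10, ← Real.rpow_mul hNr.le]
    congr 2
    push_cast
    ring
  have h5 : (N : ℝ) ^ (5 - ε) = (N : ℝ) ^ 5 / (N : ℝ) ^ ε := by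
    rw [Real.rpow_sub hNr]
    norm_cast
  rw [h5]
  have hpos : 0 < (N : ℝ) ^ ε := by positivity
  rw [hM10] at hfin
  have h6 : 0 < (4 * D) ^ 10 := by positivity
  rw [← mul_div_assoc, div_le_iff₀ hpos, one_div, inv_mul_le_iff₀ (by positivity)]
  calc (N : ℝ) ^ 5 = 4 * ((N : ℝ) ^ 5 / 4) := by ring
    _ ≤ 4 * ((4 * D) ^ 10 * (N : ℝ) ^ ε * ((RS C N).ncard : ℝ)) := by linarith
    _ = 4 * (4 * D) ^ 10 * (((RS C N).ncard : ℝ) * (N : ℝ) ^ ε) := by ring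

end Pool.Helper17.R5
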